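import Pool.Agent.R249.Bn.Mom

/-!
# The error estimate for monomials
-/

set_option autoImplicit false

open Finset

namespace Pool.Agent.R249.Bn

/-- first coefficient -/
noncomputable def ss (n k j : ℕ) : ℝ := ((k : ℝ) + j) * ((k : ℝ) + j - 1) / (2 * n)
/-- second coefficient -/
noncomputable def al (n k : ℕ) : ℝ := (k : ℝ) * ((k : ℝ) - 1) / (2 * n)

/-- The Voronovskaja approximant after a list of steps. -/
noncomputable def W (n : ℕ) (x y : ℂ) (l : List Bool) (k j : ℕ) : ℂ :=
  ((1 - ss n k j : ℝ) : ℂ) * F n x y l k j + (al n k : ℂ) * F n x y l (k - 1) j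
    + (al n j : ℂ) * F n x y l k (j - 1)

lemma nat_mul_pred_nonneg (k : ℕ) : (0 : ℝ) ≤ (k : ℝ) * ((k : ℝ) - 1) := by
  rcases k with _ | k
  · simp
  · push_cast
    have : (0 : ℝ) ≤ k := Nat.cast_nonneg k
    nlinarith

lemma al_nonneg (n k : ℕ) : 0 ≤ al n k :=
  div_nonneg (nat_mul_pred_nonneg k) (by positivity)

lemma ss_nonneg (n k j : ℕ) : 0 ≤ ss n k j := by
  have := al_nonneg n (k + j)
  unfold al at this
  unfold ss
  push_cast at this
  exact this

lemma al_add_le (n k j : ℕ) (hn : 0 < n) : al n k + al n j ≤ ss n k j := by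
  have hn' : (0 : ℝ) < n := by exact_mod_cast hn
  unfold al ss
  rw [← add_div]
  apply div_le_div_of_nonneg_right _ (by positivity)
  have h1 : (0 : ℝ) ≤ k := Nat.cast_nonneg k
  have h2 : (0 : ℝ) ≤ j := Nat.cast_nonneg j
  nlinarith [mul_nonneg h1 h2]

variable {x y : ℂ} {r s : ℝ}

lemma F_bound (n : ℕ) (hn : 0 < n) (hr : 1 ≤ r) (hs : 1 ≤ s) (hx : ‖x‖ ≤ r) (hy : ‖y‖ ≤ s) :
    ∀ (l : List Bool) (a b : ℕ), a + b ≤ n →
      ‖F n x y l a b‖ ≤ r ^ (a + l.count true) * s ^ (b + l.count false) := by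
  have hn' : (0 : ℝ) < n := by exact_mod_cast hn
  have hr0 : (0 : ℝ) ≤ r := by linarith
  have hs0 : (0 : ℝ) ≤ s := by linarith
  intro l
  induction l with
  | nil =>
    intro a b _
    simp only [F, List.count_nil, add_zero, norm_mul, norm_pow]
    gcongr
  | cons c l ih =>
    intro a b hab
    have hab' : (0 : ℝ) ≤ (n : ℝ) - a - b := by
      have : (a : ℝ) + b ≤ n := by exact_mod_cast hab
      linarith
    have ha0 : (0 : ℝ) ≤ (a : ℝ) := Nat.cast_nonneg a
    have hb0 : (0 : ℝ) ≤ (b : ℝ) := Nat.cast_nonneg b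
    have e1 : ((n : ℂ) - a - b) / n = ((((n : ℝ) - a - b) / n : ℝ) : ℂ) := by push_cast; rfl
    have e2 : (a : ℂ) / n = (((a : ℝ) / n : ℝ) : ℂ) := by push_cast; rfl
    have e3 : (b : ℂ) / n = (((b : ℝ) / n : ℝ) : ℂ) := by push_cast; rfl
    cases c with
    | true =>
      have h2 : (true :: l).count true = l.count true + 1 := by simp
      have h3 : (true :: l).count false = l.count false := by simp
      rw [h2, h3]
      simp only [F]
      rw [e1, e2]
      have hQ1 : ‖F n x y l a b‖ ≤ r ^ (a + (l.count true + 1)) * s ^ (b + l.count false) := by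
        refine (ih a b hab).trans ?_
        gcongr
        omega
      have hQ0 : 0 ≤ r ^ (a + (l.count true + 1)) * s ^ (b + l.count false) := by positivity
      have hA : ((n : ℝ) - a - b) / n * ‖F n x y l (a + 1) b‖
          ≤ ((n : ℝ) - a - b) / n * (r ^ (a + (l.count true + 1)) * s ^ (b + l.count false)) := by
        rcases Nat.lt_or_ge (a + b) n with h | h
        · have h4 := ih (a + 1) b (by omega)
          have e5 : a + 1 + l.count true = a + (l.count true + 1) := by omega
          rw [e5] at h4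
          exact mul_le_mul_of_nonneg_left h4 (by positivity)
        · have : (n : ℝ) - a - b = 0 := by
            have : (n : ℝ) ≤ a + b := by exact_mod_cast h
            linarith
          rw [this]; simp
      calc ‖((((n : ℝ) - a - b) / n : ℝ) : ℂ) * F n x y l (a + 1) b
            + (((a : ℝ) / n : ℝ) : ℂ) * F n x y l a b‖
          ≤ ((n : ℝ) - a - b) / n * ‖F n x y l (a + 1) b‖ + (a : ℝ) / n * ‖F n x y l a b‖ := by
            refine (norm_add_le _ _).trans ?_
            rw [norm_mul, norm_mul, Complex.norm_real, Complex.norm_real, Real.norm_eq_abs,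
              Real.norm_eq_abs, abs_of_nonneg (div_nonneg hab' hn'.le),
              abs_of_nonneg (div_nonneg ha0 hn'.le)]
        _ ≤ ((n : ℝ) - a - b) / n * (r ^ (a + (l.count true + 1)) * s ^ (b + l.count false))
            + (a : ℝ) / n * (r ^ (a + (l.count true + 1)) * s ^ (b + l.count false)) := by
            have := mul_le_mul_of_nonneg_left hQ1 (div_nonneg ha0 hn'.le)
            linarith
        _ = ((n : ℝ) - b) / n * (r ^ (a + (l.count true + 1)) * s ^ (b + l.count false)) := by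
            ring
        _ ≤ 1 * (r ^ (a + (l.count true + 1)) * s ^ (b + l.count false)) := by
            apply mul_le_mul_of_nonneg_right _ hQ0
            rw [div_le_one hn']
            linarith
        _ = _ := one_mul _
    | false =>
      have h2 : (false :: l).count false = l.count false + 1 := by simp
      have h3 : (false :: l).count true = l.count true := by simp
      rw [h2, h3]
      simp only [F]
      rw [e1, e3]
      have hQ1 : ‖F n x y l a b‖ ≤ r ^ (a + l.count true) * s ^ (b + (l.count false + 1)) := by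
        refine (ih a b hab).trans ?_
        gcongr
        omega
      have hQ0 : 0 ≤ r ^ (a + l.count true) * s ^ (b + (l.count false + 1)) := by positivity
      have hA : ((n : ℝ) - a - b) / n * ‖F n x y l a (b + 1)‖
          ≤ ((n : ℝ) - a - b) / n * (r ^ (a + l.count true) * s ^ (b + (l.count false + 1))) := by
        rcases Nat.lt_or_ge (a + b) n with h | h
        · have h4 := ih a (b + 1) (by omega)
          have e5 : b + 1 + l.count false = b + (l.count false + 1) := by omega
          rw [e5] at h4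
          exact mul_le_mul_of_nonneg_left h4 (by positivity)
        · have : (n : ℝ) - a - b = 0 := by
            have : (n : ℝ) ≤ a + b := by exact_mod_cast h
            linarith
          rw [this]; simp
      calc ‖((((n : ℝ) - a - b) / n : ℝ) : ℂ) * F n x y l a (b + 1)
            + (((b : ℝ) / n : ℝ) : ℂ) * F n x y l a b‖
          ≤ ((n : ℝ) - a - b) / n * ‖F n x y l a (b + 1)‖ + (b : ℝ) / n * ‖F n x y l a b‖ := by
            refine (norm_add_le _ _).trans ?_
            rw [norm_mul, norm_mul, Complex.norm_real, Complex.norm_real, Real.norm_eq_abs,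
              Real.norm_eq_abs, abs_of_nonneg (div_nonneg hab' hn'.le),
              abs_of_nonneg (div_nonneg hb0 hn'.le)]
        _ ≤ ((n : ℝ) - a - b) / n * (r ^ (a + l.count true) * s ^ (b + (l.count false + 1)))
            + (b : ℝ) / n * (r ^ (a + l.count true) * s ^ (b + (l.count false + 1))) := by
            have := mul_le_mul_of_nonneg_left hQ1 (div_nonneg hb0 hn'.le)
            linarith
        _ = ((n : ℝ) - a) / n * (r ^ (a + l.count true) * s ^ (b + (l.count false + 1))) := by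
            ring
        _ ≤ 1 * (r ^ (a + l.count true) * s ^ (b + (l.count false + 1))) := by
            apply mul_le_mul_of_nonneg_right _ hQ0
            rw [div_le_one hn']
            linarith
        _ = _ := one_mul _

lemma W_true (n : ℕ) (hn : 0 < n) (l : List Bool) (k j : ℕ) :
    W n x y (true :: l) k j - W n x y l (k + 1) j
      = ((ss n k j * (k + j) / n : ℝ) : ℂ) * F n x y l (k + 1) j
        - ((ss n k j * k / n + al n k * (k + j - 1) / n : ℝ) : ℂ) * F n x y l k j
        + ((al n k * (k - 1) / n : ℝ) : ℂ) * F n x y l (k - 1) j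
        - ((al n j * (k + j - 1) / n : ℝ) : ℂ) * F n x y l (k + 1) (j - 1)
        + ((al n j * k / n : ℝ) : ℂ) * F n x y l k (j - 1) := by
  have hn' : (n : ℂ) ≠ 0 := by exact_mod_cast hn.ne'
  rcases k with _ | k <;> rcases j with _ | j
  · simp only [W, F, ss, al]; push_cast; simp; field_simp; simp
  · simp only [W, F, ss, al, Nat.add_sub_cancel]; push_cast; field_simp; ring
  · simp only [W, F, ss, al, Nat.add_sub_cancel]; push_cast; field_simp; ring
  · simp only [W, F, ss, al, Nat.add_sub_cancel]; push_cast; field_simp; ring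

lemma W_false (n : ℕ) (hn : 0 < n) (l : List Bool) (k j : ℕ) :
    W n x y (false :: l) k j - W n x y l k (j + 1)
      = ((ss n k j * (k + j) / n : ℝ) : ℂ) * F n x y l k (j + 1)
        - ((ss n k j * j / n + al n j * (k + j - 1) / n : ℝ) : ℂ) * F n x y l k j
        + ((al n j * (j - 1) / n : ℝ) : ℂ) * F n x y l k (j - 1)
        - ((al n k * (k + j - 1) / n : ℝ) : ℂ) * F n x y l (k - 1) (j + 1)
        + ((al n k * j / n : ℝ) : ℂ) * F n x y l (k - 1) j := by
  have hn' : (n : ℂ) ≠ 0 := by exact_mod_cast hn.ne'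
  rcases k with _ | k <;> rcases j with _ | j
  · simp only [W, F, ss, al]; push_cast; simp; field_simp; simp
  · simp only [W, F, ss, al, Nat.add_sub_cancel]; push_cast; field_simp; ring
  · simp only [W, F, ss, al, Nat.add_sub_cancel]; push_cast; field_simp; ring
  · simp only [W, F, ss, al, Nat.add_sub_cancel]; push_cast; field_simp; ring

lemma coef_facts (k j : ℕ) :
    (0 : ℝ) ≤ ((k : ℝ) + j) * ((k : ℝ) + j - 1) * (k + j) ∧
    (0 : ℝ) ≤ ((k : ℝ) + j) * ((k : ℝ) + j - 1) * k + k * ((k : ℝ) - 1) * (k + j - 1) ∧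
    (0 : ℝ) ≤ (k : ℝ) * ((k : ℝ) - 1) * (k - 1) ∧
    (0 : ℝ) ≤ (j : ℝ) * ((j : ℝ) - 1) * (k + j - 1) ∧
    (0 : ℝ) ≤ (j : ℝ) * ((j : ℝ) - 1) * k ∧
    ((k : ℝ) + j) * ((k : ℝ) + j - 1) * (k + j)
      + (((k : ℝ) + j) * ((k : ℝ) + j - 1) * k + k * ((k : ℝ) - 1) * (k + j - 1))
      + (k : ℝ) * ((k : ℝ) - 1) * (k - 1) + (j : ℝ) * ((j : ℝ) - 1) * (k + j - 1)
      + (j : ℝ) * ((j : ℝ) - 1) * k ≤ 4 * ((k : ℝ) + j) ^ 3 := by
  have hk : (0 : ℝ) ≤ k := Nat.cast_nonneg k
  have hj : (0 : ℝ) ≤ j := Nat.cast_nonneg j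
  have h1 := nat_mul_pred_nonneg k
  have h2 := nat_mul_pred_nonneg j
  have h3 := nat_mul_pred_nonneg (k + j)
  push_cast at h3
  have h4 : (0 : ℝ) ≤ (k : ℝ) * ((k : ℝ) - 1) * (k - 1) := by
    have : (k : ℝ) * ((k : ℝ) - 1) * (k - 1) = k * ((k : ℝ) - 1) ^ 2 := by ring
    rw [this]; positivity
  have h5 : (0 : ℝ) ≤ (j : ℝ) * ((j : ℝ) - 1) * (j - 1) := by
    have : (j : ℝ) * ((j : ℝ) - 1) * (j - 1) = j * ((j : ℝ) - 1) ^ 2 := by ring
    rw [this]; positivity
  have h6 := mul_nonneg h1 hj
  have h7 := mul_nonneg h2 hk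
  have h8 := mul_nonneg h3 hk
  have h9 := mul_nonneg h3 hj
  refine ⟨?_, ?_, h4, ?_, h7, ?_⟩
  · nlinarith
  · nlinarith
  · nlinarith
  · have m1 := mul_nonneg hk hj
    have m2 := mul_nonneg m1 hk
    have m3 := mul_nonneg m1 hj
    have m4 := mul_nonneg hk hk
    have m5 := mul_nonneg hj hj
    have m6 := mul_nonneg m4 hk
    have m7 := mul_nonneg m5 hj
    nlinarith

lemma norm_five (c1 c2 c3 c4 c5 : ℝ) (A B C D E : ℂ) (Q : ℝ)
    (h1 : 0 ≤ c1) (h2 : 0 ≤ c2) (h3 : 0 ≤ c3) (h4 : 0 ≤ c4) (h5 : 0 ≤ c5)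
    (hA : ‖A‖ ≤ Q) (hB : ‖B‖ ≤ Q) (hC : ‖C‖ ≤ Q) (hD : ‖D‖ ≤ Q) (hE : ‖E‖ ≤ Q) :
    ‖(c1 : ℂ) * A - (c2 : ℂ) * B + (c3 : ℂ) * C - (c4 : ℂ) * D + (c5 : ℂ) * E‖
      ≤ (c1 + c2 + c3 + c4 + c5) * Q := by
  have key : ∀ (c : ℝ) (Z : ℂ), 0 ≤ c → ‖Z‖ ≤ Q → ‖(c : ℂ) * Z‖ ≤ c * Q := by
    intro c Z hc hZ
    rw [norm_mul, Complex.norm_real, Real.norm_eq_abs, abs_of_nonneg hc]
    exact mul_le_mul_of_nonneg_left hZ hc
  calc ‖(c1 : ℂ) * A - (c2 : ℂ) * B + (c3 : ℂ) * C - (c4 : ℂ) * D + (c5 : ℂ) * E‖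
      ≤ ‖(c1 : ℂ) * A‖ + ‖(c2 : ℂ) * B‖ + ‖(c3 : ℂ) * C‖ + ‖(c4 : ℂ) * D‖ + ‖(c5 : ℂ) * E‖ := by
        refine (norm_add_le _ _).trans (add_le_add ?_ le_rfl)
        refine (norm_sub_le _ _).trans (add_le_add ?_ le_rfl)
        refine (norm_add_le _ _).trans (add_le_add ?_ le_rfl)
        exact norm_sub_le _ _
    _ ≤ c1 * Q + c2 * Q + c3 * Q + c4 * Q + c5 * Q := by
        have := key c1 A h1 hA
        have := key c2 B h2 hB
        have := key c3 C h3 hC
        have := key c4 D h4 hD
        have := key c5 E h5 hE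
        linarith
    _ = _ := by ring

lemma W_true_bound (n : ℕ) (hn : 0 < n) (hr : 1 ≤ r) (hs : 1 ≤ s) (hx : ‖x‖ ≤ r) (hy : ‖y‖ ≤ s)
    (l : List Bool) (k j : ℕ) (hkj : k + j + 1 ≤ n) :
    ‖W n x y (true :: l) k j - W n x y l (k + 1) j‖
      ≤ 2 * ((k : ℝ) + j) ^ 3 / n ^ 2 *
        (r ^ (k + (true :: l).count true) * s ^ (j + (true :: l).count false)) := by
  have hn' : (0 : ℝ) < n := by exact_mod_cast hn
  have h2 : (true :: l).count true = l.count true + 1 := by simp
  have h3 : (true :: l).count false = l.count false := by simp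
  rw [h2, h3, W_true n hn]
  obtain ⟨f1, f2, f3, f4, f5, f6⟩ := coef_facts k j
  have hb : ∀ a b : ℕ, a ≤ k + 1 → b ≤ j → ‖F n x y l a b‖
      ≤ r ^ (k + (l.count true + 1)) * s ^ (j + l.count false) := by
    intro a b ha hb
    refine (F_bound n hn hr hs hx hy l a b (by omega)).trans ?_
    have e1 : r ^ (a + l.count true) ≤ r ^ (k + (l.count true + 1)) :=
      pow_le_pow_right₀ hr (by omega)
    have e2 : s ^ (b + l.count false) ≤ s ^ (j + l.count false) :=
      pow_le_pow_right₀ hs (by omega)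
    exact mul_le_mul e1 e2 (by positivity) (by positivity)
  have e1 : ss n k j * (k + j) / n = (((k : ℝ) + j) * ((k : ℝ) + j - 1) * (k + j)) / (2 * n ^ 2) := by
    unfold ss; field_simp
  have e2 : ss n k j * k / n + al n k * (k + j - 1) / n
      = (((k : ℝ) + j) * ((k : ℝ) + j - 1) * k + k * ((k : ℝ) - 1) * (k + j - 1))
        / (2 * n ^ 2) := by
    unfold ss al; field_simp
  have e3 : al n k * (k - 1) / n = ((k : ℝ) * ((k : ℝ) - 1) * (k - 1)) / (2 * n ^ 2) := by
    unfold al; field_simp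
  have e4 : al n j * (k + j - 1) / n
      = ((j : ℝ) * ((j : ℝ) - 1) * (k + j - 1)) / (2 * n ^ 2) := by
    unfold al; field_simp
  have e5 : al n j * k / n = ((j : ℝ) * ((j : ℝ) - 1) * k) / (2 * n ^ 2) := by
    unfold al; field_simp
  have hd : (0 : ℝ) ≤ 2 * n ^ 2 := by positivity
  refine (norm_five _ _ _ _ _ _ _ _ _ _ (r ^ (k + (l.count true + 1)) * s ^ (j + l.count false))
    ?_ ?_ ?_ ?_ ?_ (hb _ _ (by omega) (by omega)) (hb _ _ (by omega) (by omega))
    (hb _ _ (by omega) (by omega)) (hb _ _ (by omega) (by omega))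
    (hb _ _ (by omega) (by omega))).trans ?_
  · rw [e1]; exact div_nonneg f1 hd
  · rw [e2]; exact div_nonneg f2 hd
  · rw [e3]; exact div_nonneg f3 hd
  · rw [e4]; exact div_nonneg f4 hd
  · rw [e5]; exact div_nonneg f5 hd
  · apply mul_le_mul_of_nonneg_right _ (by positivity)
    rw [e1, e2, e3, e4, e5, ← add_div, ← add_div, ← add_div, ← add_div]
    rw [div_le_div_iff₀ (by positivity) (by positivity)]
    have hn2 : (0 : ℝ) ≤ (n : ℝ) ^ 2 := by positivity
    nlinarith [mul_le_mul_of_nonneg_right f6 hn2]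

lemma W_false_bound (n : ℕ) (hn : 0 < n) (hr : 1 ≤ r) (hs : 1 ≤ s) (hx : ‖x‖ ≤ r) (hy : ‖y‖ ≤ s)
    (l : List Bool) (k j : ℕ) (hkj : k + j + 1 ≤ n) :
    ‖W n x y (false :: l) k j - W n x y l k (j + 1)‖
      ≤ 2 * ((k : ℝ) + j) ^ 3 / n ^ 2 *
        (r ^ (k + (false :: l).count true) * s ^ (j + (false :: l).count false)) := by
  have hn' : (0 : ℝ) < n := by exact_mod_cast hn
  have h2 : (false :: l).count true = l.count true := by simp
  have h3 : (false :: l).count false = l.count false + 1 := by simp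
  rw [h2, h3, W_false n hn]
  obtain ⟨f1, f2, f3, f4, f5, f6⟩ := coef_facts j k
  have hb : ∀ a b : ℕ, a ≤ k → b ≤ j + 1 → ‖F n x y l a b‖
      ≤ r ^ (k + l.count true) * s ^ (j + (l.count false + 1)) := by
    intro a b ha hb
    refine (F_bound n hn hr hs hx hy l a b (by omega)).trans ?_
    have e1 : r ^ (a + l.count true) ≤ r ^ (k + l.count true) :=
      pow_le_pow_right₀ hr (by omega)
    have e2 : s ^ (b + l.count false) ≤ s ^ (j + (l.count false + 1)) :=
      pow_le_pow_right₀ hs (by omega)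
    exact mul_le_mul e1 e2 (by positivity) (by positivity)
  have e1 : ss n k j * (k + j) / n = (((j : ℝ) + k) * ((j : ℝ) + k - 1) * (j + k)) / (2 * n ^ 2) := by
    unfold ss; field_simp; ring
  have e2 : ss n k j * j / n + al n j * (k + j - 1) / n
      = (((j : ℝ) + k) * ((j : ℝ) + k - 1) * j + j * ((j : ℝ) - 1) * (j + k - 1))
        / (2 * n ^ 2) := by
    unfold ss al; field_simp; ring
  have e3 : al n j * (j - 1) / n = ((j : ℝ) * ((j : ℝ) - 1) * (j - 1)) / (2 * n ^ 2) := by
    unfold al; field_simp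
  have e4 : al n k * (k + j - 1) / n
      = ((k : ℝ) * ((k : ℝ) - 1) * (j + k - 1)) / (2 * n ^ 2) := by
    unfold al; field_simp; ring
  have e5 : al n k * j / n = ((k : ℝ) * ((k : ℝ) - 1) * j) / (2 * n ^ 2) := by
    unfold al; field_simp
  have hd : (0 : ℝ) ≤ 2 * n ^ 2 := by positivity
  refine (norm_five _ _ _ _ _ _ _ _ _ _ (r ^ (k + l.count true) * s ^ (j + (l.count false + 1)))
    ?_ ?_ ?_ ?_ ?_ (hb _ _ (by omega) (by omega)) (hb _ _ (by omega) (by omega))
    (hb _ _ (by omega) (by omega)) (hb _ _ (by omega) (by omega))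
    (hb _ _ (by omega) (by omega))).trans ?_
  · rw [e1]; exact div_nonneg f1 hd
  · rw [e2]; exact div_nonneg f2 hd
  · rw [e3]; exact div_nonneg f3 hd
  · rw [e4]; exact div_nonneg f4 hd
  · rw [e5]; exact div_nonneg f5 hd
  · apply mul_le_mul_of_nonneg_right _ (by positivity)
    rw [e1, e2, e3, e4, e5, ← add_div, ← add_div, ← add_div, ← add_div]
    rw [div_le_div_iff₀ (by positivity) (by positivity)]
    have hn2 : (0 : ℝ) ≤ (n : ℝ) ^ 2 := by positivity
    nlinarith [mul_le_mul_of_nonneg_right f6 hn2]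

lemma pow4_step (a b : ℝ) (ha : 0 ≤ a) (_hb : 0 ≤ b) :
    2 * a ^ 3 + 2 * ((a + (b + 1)) ^ 4 - (a + 1) ^ 4) ≤ 2 * ((a + (b + 1)) ^ 4 - a ^ 4) := by
  have h2 : 0 ≤ a ^ 2 := by positivity
  have h3 : 0 ≤ a ^ 3 := by positivity
  nlinarith

lemma main_ind (n : ℕ) (hn : 0 < n) (hr : 1 ≤ r) (hs : 1 ≤ s) (hx : ‖x‖ ≤ r) (hy : ‖y‖ ≤ s) :
    ∀ (l : List Bool) (k j : ℕ), k + j + l.length ≤ n →
      ‖W n x y l k j - W n x y [] (k + l.count true) (j + l.count false)‖
        ≤ 2 * (((k : ℝ) + j + l.length) ^ 4 - ((k : ℝ) + j) ^ 4) / n ^ 2 *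
          (r ^ (k + l.count true) * s ^ (j + l.count false)) := by
  have hn' : (0 : ℝ) < n := by exact_mod_cast hn
  intro l
  induction l with
  | nil =>
    intro k j _
    simp
  | cons c l ih =>
    intro k j hkj
    rw [List.length_cons] at hkj
    have ha : (0 : ℝ) ≤ (k : ℝ) + j := by positivity
    have hb : (0 : ℝ) ≤ (l.length : ℝ) := Nat.cast_nonneg _
    have hp := pow4_step ((k : ℝ) + j) (l.length : ℝ) ha hb
    cases c with
    | true =>
      have h1 := W_true_bound n hn hr hs hx hy l k j (by omega)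
      have h2 := ih (k + 1) j (by omega)
      have e1 : k + 1 + l.count true = k + (true :: l).count true := by simp; omega
      have e2 : l.count false = (true :: l).count false := by simp
      rw [e1, e2] at h2
      set Q := r ^ (k + (true :: l).count true) * s ^ (j + (true :: l).count false) with hQ
      have hQ0 : 0 ≤ Q := by positivity
      have h3 : W n x y (true :: l) k j
          - W n x y [] (k + (true :: l).count true) (j + (true :: l).count false)
          = (W n x y (true :: l) k j - W n x y l (k + 1) j)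
            + (W n x y l (k + 1) j
              - W n x y [] (k + (true :: l).count true) (j + (true :: l).count false)) := by ring
      rw [h3]
      refine (norm_add_le _ _).trans ((add_le_add h1 h2).trans ?_)
      rw [← add_mul, ← add_div]
      apply mul_le_mul_of_nonneg_right _ hQ0
      apply div_le_div_of_nonneg_right _ (by positivity)
      rw [List.length_cons]
      push_cast
      have e3 : (k : ℝ) + 1 + j + l.length = (k : ℝ) + j + (l.length + 1) := by ring
      have e4 : (k : ℝ) + 1 + j = (k : ℝ) + j + 1 := by ring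
      rw [e3, e4]
      exact hp
    | false =>
      have h1 := W_false_bound n hn hr hs hx hy l k j (by omega)
      have h2 := ih k (j + 1) (by omega)
      have e1 : j + 1 + l.count false = j + (false :: l).count false := by simp; omega
      have e2 : l.count true = (false :: l).count true := by simp
      rw [e1, e2] at h2
      set Q := r ^ (k + (false :: l).count true) * s ^ (j + (false :: l).count false) with hQ
      have hQ0 : 0 ≤ Q := by positivity
      have h3 : W n x y (false :: l) k j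
          - W n x y [] (k + (false :: l).count true) (j + (false :: l).count false)
          = (W n x y (false :: l) k j - W n x y l k (j + 1))
            + (W n x y l k (j + 1)
              - W n x y [] (k + (false :: l).count true) (j + (false :: l).count false)) := by ring
      rw [h3]
      refine (norm_add_le _ _).trans ((add_le_add h1 h2).trans ?_)
      rw [← add_mul, ← add_div]
      apply mul_le_mul_of_nonneg_right _ hQ0
      apply div_le_div_of_nonneg_right _ (by positivity)
      rw [List.length_cons]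
      push_cast
      have e3 : (k : ℝ) + (j + 1) + l.length = (k : ℝ) + j + (l.length + 1) := by ring
      have e4 : (k : ℝ) + ((j : ℝ) + 1) = (k : ℝ) + j + 1 := by ring
      rw [e3, e4]
      exact hp

lemma V_bound (n : ℕ) (hn : 0 < n) (hr : 1 ≤ r) (hs : 1 ≤ s) (hx : ‖x‖ ≤ r) (hy : ‖y‖ ≤ s)
    (k j : ℕ) : ‖W n x y [] k j‖ ≤ (1 + 2 * ss n k j) * (r ^ k * s ^ j) := by
  have hn' : (0 : ℝ) < n := by exact_mod_cast hn
  have hb : ∀ a b : ℕ, a ≤ k → b ≤ j → ‖F n x y [] a b‖ ≤ r ^ k * s ^ j := by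
    intro a b ha hb
    simp only [F, norm_mul, norm_pow]
    have e1 : ‖x‖ ^ a ≤ r ^ k := (pow_le_pow_left₀ (norm_nonneg _) hx a).trans
      (pow_le_pow_right₀ hr ha)
    have e2 : ‖y‖ ^ b ≤ s ^ j := (pow_le_pow_left₀ (norm_nonneg _) hy b).trans
      (pow_le_pow_right₀ hs hb)
    exact mul_le_mul e1 e2 (by positivity) (by positivity)
  have h1 := hb k j le_rfl le_rfl
  have h2 := hb (k - 1) j (by omega) le_rfl
  have h3 := hb k (j - 1) le_rfl (by omega)
  have hQ : 0 ≤ r ^ k * s ^ j := by positivity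
  have hss := ss_nonneg n k j
  have hak := al_nonneg n k
  have haj := al_nonneg n j
  have hle := al_add_le n k j hn
  unfold W
  have g1 : ‖((1 - ss n k j : ℝ) : ℂ) * F n x y [] k j‖ ≤ (1 + ss n k j) * (r ^ k * s ^ j) := by
    rw [norm_mul, Complex.norm_real, Real.norm_eq_abs]
    have : |1 - ss n k j| ≤ 1 + ss n k j := by
      rw [abs_le]; constructor <;> linarith
    exact mul_le_mul this h1 (norm_nonneg _) (by linarith)
  have g2 : ‖(al n k : ℂ) * F n x y [] (k - 1) j‖ ≤ al n k * (r ^ k * s ^ j) := by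
    rw [norm_mul, Complex.norm_real, Real.norm_eq_abs, abs_of_nonneg hak]
    exact mul_le_mul_of_nonneg_left h2 hak
  have g3 : ‖(al n j : ℂ) * F n x y [] k (j - 1)‖ ≤ al n j * (r ^ k * s ^ j) := by
    rw [norm_mul, Complex.norm_real, Real.norm_eq_abs, abs_of_nonneg haj]
    exact mul_le_mul_of_nonneg_left h3 haj
  refine (norm_add_le _ _).trans ?_
  have g4 := norm_add_le (((1 - ss n k j : ℝ) : ℂ) * F n x y [] k j)
    ((al n k : ℂ) * F n x y [] (k - 1) j)
  nlinarith [mul_le_mul_of_nonneg_right hle hQ]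

/-- The error estimate for monomials. -/
theorem mono_est (n : ℕ) (hn : 0 < n) (hr : 1 ≤ r) (hs : 1 ≤ s) (hx : ‖x‖ ≤ r) (hy : ‖y‖ ≤ s)
    (k j : ℕ) :
    ‖M n x y (fun p q => ((p : ℂ) / n) ^ k * ((q : ℂ) / n) ^ j) - W n x y [] k j‖
      ≤ 3 * ((k : ℝ) + j) ^ 4 / n ^ 2 * (r ^ k * s ^ j) := by
  have hn' : (0 : ℝ) < n := by exact_mod_cast hn
  set l : List Bool := List.replicate k true ++ List.replicate j false with hl
  have hc1 : l.count true = k := by
    rw [hl, List.count_append, List.count_replicate_self, List.count_replicate]; simp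
  have hc2 : l.count false = j := by
    rw [hl, List.count_append, List.count_replicate_self, List.count_replicate]; simp
  have hlen : l.length = k + j := by simp [hl]
  have hM := M_F n hn x y l 0 0
  rw [hc1, hc2] at hM
  simp only [Nat.descFactorial_zero, Nat.cast_one, mul_one, one_mul, add_zero] at hM
  rw [hM]
  have hQ : 0 ≤ r ^ k * s ^ j := by positivity
  have hkj : (0 : ℝ) ≤ (k : ℝ) + j := by positivity
  rcases Nat.lt_or_ge n (k + j) with h | h
  · have h1 := F_bound n hn hr hs hx hy l 0 0 (by omega)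
    rw [hc1, hc2, zero_add, zero_add] at h1
    have h2 := V_bound n hn hr hs hx hy k j
    refine (norm_sub_le _ _).trans ((add_le_add h1 h2).trans ?_)
    have e : r ^ k * s ^ j + (1 + 2 * ss n k j) * (r ^ k * s ^ j)
        = (2 + 2 * ss n k j) * (r ^ k * s ^ j) := by ring
    rw [e]
    apply mul_le_mul_of_nonneg_right _ hQ
    have h3 : (n : ℝ) < (k : ℝ) + j := by exact_mod_cast h
    have h4 : (1 : ℝ) ≤ n := by exact_mod_cast hn
    unfold ss
    rw [le_div_iff₀ (by positivity)]
    have e2 : (2 + 2 * (((k : ℝ) + j) * ((k : ℝ) + j - 1) / (2 * n))) * n ^ 2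
        = 2 * n ^ 2 + ((k : ℝ) + j) * ((k : ℝ) + j - 1) * n := by
      field_simp
    rw [e2]
    set K := (k : ℝ) + j with hK
    have hK1 : 1 ≤ K := h4.trans h3.le
    have i1 : (n : ℝ) ^ 2 ≤ K ^ 2 := by gcongr
    have i2 : K * (K - 1) * n ≤ K ^ 2 * K := by
      have : K * (K - 1) ≤ K ^ 2 := by nlinarith
      exact mul_le_mul this h3.le (by positivity) (by positivity)
    have i3 : K ^ 2 ≤ K ^ 4 := pow_le_pow_right₀ hK1 (by norm_num)
    have i4 : K ^ 3 ≤ K ^ 4 := pow_le_pow_right₀ hK1 (by norm_num)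
    nlinarith
  · have h1 := main_ind n hn hr hs hx hy l 0 0 (by omega)
    rw [hc1, hc2, hlen] at h1
    simp only [zero_add, Nat.cast_zero, add_zero] at h1
    have h2 : W n x y l 0 0 = F n x y l 0 0 := by
      simp [W, ss, al]
    rw [h2] at h1
    refine h1.trans ?_
    apply mul_le_mul_of_nonneg_right _ hQ
    apply div_le_div_of_nonneg_right _ (by positivity)
    push_cast
    have : 0 ≤ ((k : ℝ) + j) ^ 4 := by positivity
    nlinarith

end Pool.Agent.R249.Bn
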