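import Mathlib

/-!
# Bivariate Bernstein polynomials of monomials
-/

set_option autoImplicit false

open Finset

namespace Pool.Agent.R249.Bn

lemma mul_desc (p a : ℕ) :
    (p : ℂ) * (p.descFactorial a : ℂ) = ((p.descFactorial (a + 1) : ℕ) : ℂ)
      + a * (p.descFactorial a : ℂ) := by
  rw [Nat.descFactorial_succ]
  rcases le_or_gt a p with h | h
  · rw [Nat.cast_mul, Nat.cast_sub h]; ring
  · rw [Nat.descFactorial_eq_zero_iff_lt.2 h]; simp

lemma momb (b : ℕ) : ∀ (m : ℕ) (y z : ℂ),
    ∑ q ∈ range (m + 1), (m.choose q : ℂ) * y ^ q * z ^ (m - q) * (q.descFactorial b : ℂ)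
      = (m.descFactorial b : ℂ) * y ^ b * (y + z) ^ (m - b) := by
  induction b with
  | zero =>
    intro m y z
    simp only [Nat.descFactorial_zero, Nat.cast_one, mul_one, pow_zero, one_mul, Nat.sub_zero]
    rw [add_pow]
    refine Finset.sum_congr rfl fun q _ => ?_
    ring
  | succ b ih =>
    intro m y z
    rcases m with _ | m
    · simp
    · rw [Finset.sum_range_succ']
      simp only [Nat.zero_descFactorial_succ, Nat.cast_zero, mul_zero, add_zero]
      rw [Nat.succ_descFactorial_succ]
      have h1 : ∀ q ∈ range (m + 1), ((m + 1).choose (q + 1) : ℂ) * y ^ (q + 1)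
          * z ^ (m + 1 - (q + 1)) * (((q + 1).descFactorial (b + 1) : ℕ) : ℂ)
          = (m + 1) * y * ((m.choose q : ℂ) * y ^ q * z ^ (m - q)
            * (q.descFactorial b : ℂ)) := by
        intro q _
        rw [Nat.succ_descFactorial_succ, Nat.add_sub_add_right]
        have h2 : ((m + 1 : ℕ) : ℂ) * (m.choose q : ℂ)
            = ((m + 1).choose (q + 1) : ℂ) * ((q + 1 : ℕ) : ℂ) := by
          exact_mod_cast Nat.add_one_mul_choose_eq m q
        push_cast at h2 ⊢
        linear_combination (-(y ^ (q + 1) * z ^ (m - q) * (q.descFactorial b : ℂ))) * h2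
      rw [Finset.sum_congr rfl h1, ← Finset.mul_sum, ih m y z]
      have h3 : m + 1 - (b + 1) = m - b := by omega
      rw [h3]
      push_cast
      ring

lemma moma (b : ℕ) : ∀ (n : ℕ) (x w : ℂ),
    ∑ p ∈ range (n + 1), (n.choose p : ℂ) * ((n - p).descFactorial b : ℂ) * x ^ p
      * w ^ (n - p - b) = (n.descFactorial b : ℂ) * (x + w) ^ (n - b) := by
  induction b with
  | zero =>
    intro n x w
    simp only [Nat.descFactorial_zero, Nat.cast_one, mul_one, one_mul, Nat.sub_zero]
    rw [add_pow]
    refine Finset.sum_congr rfl fun q _ => ?_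
    ring
  | succ b ih =>
    intro n x w
    rcases n with _ | n
    · simp
    · rw [Finset.sum_range_succ]
      have h0 : (n + 1 - (n + 1)).descFactorial (b + 1) = 0 := by simp
      rw [h0]
      simp only [Nat.cast_zero, mul_zero, zero_mul, add_zero]
      rw [Nat.succ_descFactorial_succ]
      have h1 : ∀ p ∈ range (n + 1), ((n + 1).choose p : ℂ)
          * (((n + 1 - p).descFactorial (b + 1) : ℕ) : ℂ) * x ^ p * w ^ (n + 1 - p - (b + 1))
          = (n + 1) * ((n.choose p : ℂ) * ((n - p).descFactorial b : ℂ) * x ^ p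
            * w ^ (n - p - b)) := by
        intro p hp
        rw [Finset.mem_range] at hp
        have e1 : n + 1 - p = (n - p) + 1 := by omega
        have e2 : n - p + 1 - (b + 1) = n - p - b := by omega
        rw [e1, Nat.succ_descFactorial_succ, e2]
        have h2 : (n.choose p : ℂ) * ((n + 1 : ℕ) : ℂ)
            = ((n + 1).choose p : ℂ) * ((n - p + 1 : ℕ) : ℂ) := by
          rw [← e1]
          exact_mod_cast Nat.choose_mul_succ_eq n p
        rw [Nat.cast_mul]
        push_cast at h2 ⊢
        linear_combination (-(x ^ p * w ^ (n - p - b) * ((n - p).descFactorial b : ℂ))) * h2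
      rw [Finset.sum_congr rfl h1, ← Finset.mul_sum, ih n x w]
      have h3 : n + 1 - (b + 1) = n - b := by omega
      rw [h3]
      push_cast
      ring

lemma momab (b a : ℕ) : ∀ (n : ℕ) (x w : ℂ),
    ∑ p ∈ range (n + 1), (n.choose p : ℂ) * ((n - p).descFactorial b : ℂ) * x ^ p
      * w ^ (n - p - b) * (p.descFactorial a : ℂ)
      = (n.descFactorial (a + b) : ℂ) * x ^ a * (x + w) ^ (n - a - b) := by
  induction a with
  | zero =>
    intro n x w
    simp only [Nat.descFactorial_zero, Nat.cast_one, mul_one, pow_zero, Nat.sub_zero, Nat.zero_add]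
    exact moma b n x w
  | succ a ih =>
    intro n x w
    rcases n with _ | n
    · simp [Nat.succ_add]
    · rw [Finset.sum_range_succ']
      simp only [Nat.zero_descFactorial_succ, Nat.cast_zero, mul_zero, add_zero]
      have e : a + 1 + b = (a + b) + 1 := by omega
      rw [e, Nat.succ_descFactorial_succ]
      have h1 : ∀ p ∈ range (n + 1), ((n + 1).choose (p + 1) : ℂ)
          * ((n + 1 - (p + 1)).descFactorial b : ℂ) * x ^ (p + 1)
          * w ^ (n + 1 - (p + 1) - b) * (((p + 1).descFactorial (a + 1) : ℕ) : ℂ)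
          = (n + 1) * x * ((n.choose p : ℂ) * ((n - p).descFactorial b : ℂ) * x ^ p
            * w ^ (n - p - b) * (p.descFactorial a : ℂ)) := by
        intro p _
        rw [Nat.succ_descFactorial_succ, Nat.add_sub_add_right]
        have h2 : ((n + 1 : ℕ) : ℂ) * (n.choose p : ℂ)
            = ((n + 1).choose (p + 1) : ℂ) * ((p + 1 : ℕ) : ℂ) := by
          exact_mod_cast Nat.add_one_mul_choose_eq n p
        push_cast at h2 ⊢
        linear_combination (-(((n - p).descFactorial b : ℂ) * x ^ (p + 1) * w ^ (n - p - b)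
          * (p.descFactorial a : ℂ))) * h2
      rw [Finset.sum_congr rfl h1, ← Finset.mul_sum, ih n x w]
      have h3 : n + 1 - (a + 1) - b = n - a - b := by omega
      rw [h3]
      push_cast
      ring

/-- The Bernstein functional. -/
noncomputable def M (n : ℕ) (x y : ℂ) (g : ℕ → ℕ → ℂ) : ℂ :=
  ∑ p ∈ range (n + 1), ∑ q ∈ range (n - p + 1),
    (n.choose p : ℂ) * ((n - p).choose q : ℂ) * x ^ p * y ^ q * (1 - x - y) ^ (n - p - q) * g p q

lemma M_lin (n : ℕ) (x y : ℂ) (g h : ℕ → ℕ → ℂ) (c d : ℂ) :
    M n x y (fun p q => c * g p q + d * h p q) = c * M n x y g + d * M n x y h := by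
  unfold M
  rw [Finset.mul_sum, Finset.mul_sum, ← Finset.sum_add_distrib]
  refine Finset.sum_congr rfl fun p _ => ?_
  rw [Finset.mul_sum, Finset.mul_sum, ← Finset.sum_add_distrib]
  refine Finset.sum_congr rfl fun q _ => ?_
  ring

lemma M_desc (n : ℕ) (x y : ℂ) (a b : ℕ) :
    M n x y (fun p q => (p.descFactorial a : ℂ) * (q.descFactorial b : ℂ))
      = (n.descFactorial (a + b) : ℂ) * (x ^ a * y ^ b) := by
  unfold M
  have h : ∀ p ∈ range (n + 1), ∑ q ∈ range (n - p + 1),
      (n.choose p : ℂ) * ((n - p).choose q : ℂ) * x ^ p * y ^ q * (1 - x - y) ^ (n - p - q)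
        * ((p.descFactorial a : ℂ) * (q.descFactorial b : ℂ))
      = y ^ b * ((n.choose p : ℂ) * ((n - p).descFactorial b : ℂ) * x ^ p
      * (1 - x) ^ (n - p - b) * (p.descFactorial a : ℂ)) := by
    intro p _
    have h1 := momb b (n - p) y (1 - x - y)
    have h2 : y + (1 - x - y) = 1 - x := by ring
    rw [h2] at h1
    have h3 : ∑ q ∈ range (n - p + 1),
      (n.choose p : ℂ) * ((n - p).choose q : ℂ) * x ^ p * y ^ q * (1 - x - y) ^ (n - p - q)
        * ((p.descFactorial a : ℂ) * (q.descFactorial b : ℂ))
        = (n.choose p : ℂ) * x ^ p * (p.descFactorial a : ℂ) *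
          ∑ q ∈ range (n - p + 1), ((n - p).choose q : ℂ) * y ^ q * (1 - x - y) ^ (n - p - q)
            * (q.descFactorial b : ℂ) := by
      rw [Finset.mul_sum]
      refine Finset.sum_congr rfl fun q _ => ?_
      ring
    rw [h3, h1]
    ring
  rw [Finset.sum_congr rfl h, ← Finset.mul_sum, momab b a n x (1 - x)]
  have : x + (1 - x) = 1 := by ring
  rw [this, one_pow]
  ring

/-- The monomials after a list of steps. -/
noncomputable def F (n : ℕ) (x y : ℂ) : List Bool → ℕ → ℕ → ℂ
  | [], a, b => x ^ a * y ^ b
  | true :: l, a, b => ((n : ℂ) - a - b) / n * F n x y l (a + 1) b + (a : ℂ) / n * F n x y l a b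
  | false :: l, a, b => ((n : ℂ) - a - b) / n * F n x y l a (b + 1) + (b : ℂ) / n * F n x y l a b

lemma M_F (n : ℕ) (hn : 0 < n) (x y : ℂ) : ∀ (l : List Bool) (a b : ℕ),
    M n x y (fun p q => ((p : ℂ) / n) ^ (l.count true) * ((q : ℂ) / n) ^ (l.count false)
      * ((p.descFactorial a : ℂ) * (q.descFactorial b : ℂ)))
      = (n.descFactorial (a + b) : ℂ) * F n x y l a b := by
  have hn0 : (n : ℂ) ≠ 0 := by exact_mod_cast hn.ne'
  intro l
  induction l with
  | nil =>
    intro a b
    simp only [List.count_nil, pow_zero, one_mul]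
    rw [M_desc]
    rfl
  | cons s l ih =>
    intro a b
    have hd := mul_desc n (a + b)
    cases s with
    | true =>
      have e : (fun p q : ℕ => ((p : ℂ) / n) ^ ((true :: l).count true)
          * ((q : ℂ) / n) ^ ((true :: l).count false)
          * ((p.descFactorial a : ℂ) * (q.descFactorial b : ℂ)))
          = fun p q : ℕ => (1 / (n : ℂ)) * (((p : ℂ) / n) ^ (l.count true)
          * ((q : ℂ) / n) ^ (l.count false)
          * (((p.descFactorial (a + 1) : ℕ) : ℂ) * (q.descFactorial b : ℂ)))
          + ((a : ℂ) / n) * (((p : ℂ) / n) ^ (l.count true) * ((q : ℂ) / n) ^ (l.count false)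
          * ((p.descFactorial a : ℂ) * (q.descFactorial b : ℂ))) := by
        funext p q
        have h1 := mul_desc p a
        have h2 : (true :: l).count true = l.count true + 1 := by simp
        have h3 : (true :: l).count false = l.count false := by simp
        rw [h2, h3, pow_succ]
        linear_combination (((p : ℂ) / n) ^ (l.count true) * ((q : ℂ) / n) ^ (l.count false)
          * (q.descFactorial b : ℂ) / n) * h1
      rw [e, M_lin, ih (a + 1) b, ih a b]
      have e2 : a + 1 + b = a + b + 1 := by omega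
      rw [e2]
      have e3 : ((n.descFactorial (a + b + 1) : ℕ) : ℂ)
          = ((n : ℂ) - a - b) * (n.descFactorial (a + b) : ℂ) := by
        push_cast at hd
        linear_combination -hd
      rw [e3]
      simp only [F]
      field_simp
    | false =>
      have e : (fun p q : ℕ => ((p : ℂ) / n) ^ ((false :: l).count true)
          * ((q : ℂ) / n) ^ ((false :: l).count false)
          * ((p.descFactorial a : ℂ) * (q.descFactorial b : ℂ)))
          = fun p q : ℕ => (1 / (n : ℂ)) * (((p : ℂ) / n) ^ (l.count true)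
          * ((q : ℂ) / n) ^ (l.count false)
          * ((p.descFactorial a : ℂ) * ((q.descFactorial (b + 1) : ℕ) : ℂ)))
          + ((b : ℂ) / n) * (((p : ℂ) / n) ^ (l.count true) * ((q : ℂ) / n) ^ (l.count false)
          * ((p.descFactorial a : ℂ) * (q.descFactorial b : ℂ))) := by
        funext p q
        have h1 := mul_desc q b
        have h2 : (false :: l).count false = l.count false + 1 := by simp
        have h3 : (false :: l).count true = l.count true := by simp
        rw [h2, h3, pow_succ]
        linear_combination (((p : ℂ) / n) ^ (l.count true) * ((q : ℂ) / n) ^ (l.count false)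
          * (p.descFactorial a : ℂ) / n) * h1
      rw [e, M_lin, ih a (b + 1), ih a b]
      have e2 : a + (b + 1) = a + b + 1 := by omega
      rw [e2]
      have e3 : ((n.descFactorial (a + b + 1) : ℕ) : ℂ)
          = ((n : ℂ) - a - b) * (n.descFactorial (a + b) : ℂ) := by
        push_cast at hd
        linear_combination -hd
      rw [e3]
      simp only [F]
      field_simp

end Pool.Agent.R249.Bn
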